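import Pool.Agent.H90.EH.Targets

/-!
# (LFT) lifting the elements outside A'
-/

set_option autoImplicit false

namespace Pool.Agent.H12.EH

open Finset Pool.Agent.H90.EH
open scoped Classical

theorem pf_LFT : T_LFT := by
  intro V _ _ A A' w hA hw
  let ι : V → ℚ := fun b => if b ∈ A' then 0 else 1
  let c0 : Finset V → V → ℚ := fun B a => ∑ b ∈ B, co B a b * w b - w a
  let c1 : Finset V → V → ℚ := fun B a => ∑ b ∈ B, co B a b * ι b - ι a
  let S : ℚ := ∑ B ∈ A.powerset, ∑ a ∈ A, (|c0 B a / c1 B a| + |c0 B a|)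
  have hS : ∀ B ⊆ A, ∀ a ∈ A, |c0 B a / c1 B a| + |c0 B a| ≤ S := by
    intro B hB a ha
    have h1 : |c0 B a / c1 B a| + |c0 B a| ≤ ∑ a ∈ A, (|c0 B a / c1 B a| + |c0 B a|) :=
      single_le_sum (f := fun a => |c0 B a / c1 B a| + |c0 B a|)
        (fun x _ => by positivity) ha
    have h2 : ∑ a ∈ A, (|c0 B a / c1 B a| + |c0 B a|) ≤ S :=
      single_le_sum (f := fun B => ∑ a ∈ A, (|c0 B a / c1 B a| + |c0 B a|))
        (fun x _ => sum_nonneg fun y _ => by positivity) (mem_powerset.mpr hB)
    exact h1.trans h2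
  have hw2 : ∀ (M : ℚ) (b : V), (if b ∈ A' then w b else w b + M) = w b + M * ι b := by
    intro M b
    by_cases hb : b ∈ A'
    · simp [ι, hb]
    · simp [ι, hb]
  refine ⟨1 + S, fun M hM => ⟨?_, ?_⟩⟩
  · intro B hB a ha haB
    have h0 : c0 B a ≠ 0 := by
      intro h
      exact hw B hB a ha haB (by linarith [h])
    have hb := hS B hB.1 a ha
    intro heq
    have h1 : ∑ b ∈ B, co B a b * (if b ∈ A' then w b else w b + M) =
        ∑ b ∈ B, co B a b * w b + M * ∑ b ∈ B, co B a b * ι b := by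
      rw [mul_sum, ← sum_add_distrib]
      apply sum_congr rfl
      intro b _
      rw [hw2]
      ring
    have h2 : c0 B a + M * c1 B a = 0 := by
      dsimp only at heq
      rw [h1, hw2 M a] at heq
      show (∑ b ∈ B, co B a b * w b - w a) + M * (∑ b ∈ B, co B a b * ι b - ι a) = 0
      linarith
    by_cases hc : c1 B a = 0
    · rw [hc, mul_zero, add_zero] at h2
      exact h0 h2
    · have h3 : M = -(c0 B a / c1 B a) := by
        field_simp
        linarith
      have h4 : M ≤ |c0 B a / c1 B a| := by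
        rw [h3]
        exact neg_le_abs _
      have h5 : 0 ≤ |c0 B a| := abs_nonneg _
      linarith
  · intro B hB _ a ha _ _
    have hb := hS B (hB.trans hA) a ha
    have h4 : c0 B a ≤ |c0 B a| := le_abs_self _
    have h5 : 0 ≤ |c0 B a / c1 B a| := abs_nonneg _
    have h6 : c0 B a = ∑ b ∈ B, co B a b * w b - w a := rfl
    linarith

end Pool.Agent.H12.EH
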